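import Mathlib

namespace Pool.Agent.Results.MP_60e8bf_an.Irregular

open Filter Topology Metric Finset Classical

noncomputable def ratio (A : Set ℕ) (N : ℕ) : ℝ :=
  ((range (N + 1)).filter (· ∈ A)).card / ((N : ℝ) + 1)

noncomputable def lower (A : Set ℕ) : ℝ := liminf (ratio A) atTop

noncomputable def upper (A : Set ℕ) : ℝ := limsup (ratio A) atTop

theorem sep (A : Set ℕ) (K : ℕ) (hK : 0 < K) (h : ∀ i ∈ A, ∀ j ∈ A, i < j → i + K ≤ j) (N : ℕ) :
    (((range (N + 1)).filter (· ∈ A)).card : ℝ) ≤ N / K + 1 := by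
  have := card_le_card_of_injOn (s := (range (N + 1)).filter (· ∈ A)) (t := range (N / K + 1))
    (· / K) (fun i hi => mem_coe.2 (mem_range.2 (Nat.lt_succ_of_le (Nat.div_le_div_right
      (Nat.lt_succ_iff.1 (mem_range.1 (mem_filter.1 hi).1)))))) fun i hi j hj e => by
      have a : ∀ i ∈ A, ∀ j ∈ A, i < j → i / K < j / K := fun i hi j hj c =>
        (Nat.lt_succ_self _).trans_le ((Nat.add_div_right i hK).ge.trans
          (Nat.div_le_div_right (h i hi j hj c)))
      rcases lt_trichotomy i j with c | c | c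
      · exact absurd e (a i (mem_filter.1 hi).2 j (mem_filter.1 hj).2 c).ne
      · exact c
      · exact absurd e (a j (mem_filter.1 hj).2 i (mem_filter.1 hi).2 c).ne'
  rw [card_range] at this
  exact (Nat.cast_le.2 this).trans (by push_cast; exact add_le_add Nat.cast_div_le le_rfl)

theorem result {𝕜 X : Type*} [RCLike 𝕜] [NormedAddCommGroup X] [NormedSpace 𝕜 X] [CompleteSpace X]
    [TopologicalSpace.SeparableSpace X] [Nontrivial X] (T : X →L[𝕜] X) (x : X)
    (hx : ∀ U : Set X, IsOpen U → U.Nonempty → 0 < lower {n | (T ^ n) x ∈ U}) :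
    ∃ U : Set X, IsOpen U ∧ U.Nonempty ∧ lower {n | (T ^ n) x ∈ U} < upper {n | (T ^ n) x ∈ U} := by
  have inj : Function.Injective fun n => (T ^ n) x := by
    by_contra c
    obtain ⟨i, j, e, ne⟩ := Function.not_injective_iff.1 c
    wlog l : i < j generalizing i j
    · exact this j i e.symm ne.symm (by omega)
    have f : ∀ n, (T ^ n) x ∈ (fun n => (T ^ n) x) '' Set.Iio j := fun n => by
      induction n using Nat.strong_induction_on with
      | _ n ih =>
        rcases lt_or_ge n j with c | c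
        · exact ⟨n, c, rfl⟩
        · obtain ⟨k, rfl⟩ := Nat.exists_eq_add_of_le' c
          rw [pow_add, mul_apply_eq_comp, ← (e : (T ^ i) x = _), ← mul_apply_eq_comp, ← pow_add]
          exact ih _ (by omega)
    have fin := (Set.finite_Iio j).image fun n => (T ^ n) x
    have := Module.Free.infinite 𝕜 X
    have := hx _ fin.isClosed.isOpen_compl fin.infinite_compl.nonempty
    rw [Set.eq_empty_of_forall_notMem (s := {n | (T ^ n) x ∈ _ᶜ})
      fun n h => Set.notMem_of_mem_compl h (f n), lower,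
      show ratio ∅ = fun _ => 0 from funext fun _ => by simp [ratio], liminf_const] at this
    exact lt_irrefl _ this
  have rad : ∀ n, ∃ r > 0, (∀ m < n, (T ^ m) x ∉ ball ((T ^ n) x) r) ∧
      ∀ i, (T ^ i) x ∈ ball ((T ^ n) x) r → ∀ j, (T ^ j) x ∈ ball ((T ^ n) x) r → i < j →
        i + 2 ^ (n + 3) ≤ j := fun n => by
    have a : ∀ᶠ y in 𝓝 ((T ^ n) x), ∀ m ∈ range n, y ≠ (T ^ m) x :=
      (eventually_all_finset _).2 fun m hm => eventually_ne_nhds (inj.ne (mem_range.1 hm).ne')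
    have b : ∀ᶠ p in 𝓝 ((T ^ n) x, (T ^ n) x), ∀ k ∈ Ioo 0 (2 ^ (n + 3)), (T ^ k) p.1 ≠ p.2 :=
      (eventually_all_finset _).2 fun k hk => (ContinuousAt.eventually_ne
        (g := fun p : X × X => (T ^ k) p.1 - p.2) (by fun_prop) (sub_ne_zero.2 (by
          show (T ^ k * T ^ n) x ≠ _
          rw [← pow_add]
          exact inj.ne (by have := (mem_Ioo.1 hk).1; omega)))).mono fun _ => sub_ne_zero.1
    obtain ⟨r, r0, h1⟩ := Metric.eventually_nhds_iff_ball.1 (b.and (continuousAt_fst.eventually a))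
    simp only [← ball_prod_same] at h1
    refine ⟨r, r0, fun m hm c => (h1 (_, _) ⟨c, c⟩).2 m (mem_range.2 hm) rfl, fun i hi j hj c =>
      not_lt.1 fun d => (h1 (_, _) ⟨hi, hj⟩).1 (j - i) (mem_Ioo.2 ⟨by omega, by omega⟩) ?_⟩
    show (T ^ (j - i) * T ^ i) x = _
    rw [← pow_add, Nat.sub_add_cancel c.le]
  choose r r0 r1 r2 using rad
  let A : Set ℕ := {n | Odd (Nat.log 8 n)}
  refine ⟨⋃ n ∈ A, ball ((T ^ n) x) (r n), isOpen_biUnion fun _ _ => isOpen_ball,
    ⟨_, Set.mem_biUnion (x := 8) (show Odd _ by norm_num) (mem_ball_self (r0 8))⟩, ?_⟩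
  set B := {n | (T ^ n) x ∈ ⋃ n ∈ A, ball ((T ^ n) x) (r n)} with hB
  have b0 : ∀ N, 0 ≤ ratio B N := fun N => by unfold ratio; positivity
  have b1 : ∀ N, ratio B N ≤ 1 := fun N => div_le_one_of_le₀
    (by exact_mod_cast (card_filter_le _ _).trans_eq (card_range _)) (by positivity)
  have fr : ∀ (p : ℕ → Prop) (c : ℕ), (∀ k N, N + 1 = 8 ^ (2 * k + c) → p N) → ∃ᶠ N in atTop, p N :=
    fun p c h => frequently_atTop.2 fun a => by
      have := Nat.lt_pow_self (n := 2 * a + c) (show 1 < 8 by norm_num)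
      exact ⟨8 ^ (2 * a + c) - 1, by omega, h a _ (by omega)⟩
  refine (liminf_le_of_frequently_le (a := 1 / 2) (fr _ 1 fun k N e => ?_)
    (isBoundedUnder_of ⟨0, b0⟩)).trans_lt (lt_of_lt_of_le (b := 7 / 8) (by norm_num)
    (le_limsup_of_frequently_le (fr _ 2 fun k N e => ?_) (isBoundedUnder_of ⟨1, b1⟩)))
  · have s : (range (N + 1)).filter (· ∈ B) ⊆ (range (8 ^ (2 * k))).biUnion fun n =>
        (range (N + 1)).filter (· ∈ {i | (T ^ i) x ∈ ball ((T ^ n) x) (r n)}) := fun i hi => by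
      obtain ⟨h1, h2⟩ := mem_filter.1 hi
      obtain ⟨n, h3, h4⟩ := Set.mem_iUnion₂.1 h2
      refine mem_biUnion.2 ⟨n, mem_range.2 (not_le.1 fun c => ?_), mem_filter.2 ⟨h1, h4⟩⟩
      have := not_lt.1 fun d => r1 n i d h4
      have := Nat.log_eq_of_pow_le_of_lt_pow c (by have := mem_range.1 h1; omega)
      exact Nat.not_odd_iff_even.2 (even_two_mul k) (this ▸ h3)
    have s1 := Nat.cast_le (α := ℝ).2 ((card_le_card s).trans card_biUnion_le)
    rw [Nat.cast_sum] at s1
    have s2 := s1.trans (sum_le_sum fun n _ => sep _ _ (by positivity) (r2 n) N)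
    have s3 : ∑ n ∈ range (8 ^ (2 * k)), ((N : ℝ) / (2 ^ (n + 3) : ℕ) + 1) =
        N / 8 * ∑ n ∈ range (8 ^ (2 * k)), (1 / 2 : ℝ) ^ n + 8 ^ (2 * k) := by
      rw [sum_add_distrib, mul_sum]
      simp only [sum_const, card_range, nsmul_eq_mul, mul_one, Nat.cast_pow, Nat.cast_ofNat]
      congr 1
      exact sum_congr rfl fun n _ => by rw [one_div, inv_pow]; field_simp; ring
    have s4 := mul_le_mul_of_nonneg_left (sum_geometric_two_le (8 ^ (2 * k)))
      (show (0 : ℝ) ≤ N / 8 by positivity)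
    have s5 : (N : ℝ) + 1 = 8 ^ (2 * k) * 8 := by exact_mod_cast e
    rw [ratio, div_le_iff₀ (by positivity)]
    linarith [(Nat.cast_nonneg N : (0 : ℝ) ≤ N)]
  · have s : Ico (8 ^ (2 * k + 1)) (N + 1) ⊆ (range (N + 1)).filter (· ∈ B) := fun i hi => by
      obtain ⟨h1, h2⟩ := mem_Ico.1 hi
      refine mem_filter.2 ⟨mem_range.2 h2, Set.mem_biUnion (x := i) ?_ (mem_ball_self (r0 i))⟩
      show Odd _
      rw [Nat.log_eq_of_pow_le_of_lt_pow h1 (e ▸ h2)]
      exact odd_two_mul_add_one k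
    have s1 := card_le_card s
    rw [Nat.card_Ico, e, pow_succ] at s1
    have s2 : 7 * (N + 1) ≤ 8 * ((range (N + 1)).filter (· ∈ B)).card := by
      rw [e, pow_succ]; omega
    have s3 : 7 * ((N : ℝ) + 1) ≤ 8 * ((range (N + 1)).filter (· ∈ B)).card := by exact_mod_cast s2
    rw [ratio, le_div_iff₀ (by positivity)]
    linarith

end Pool.Agent.Results.MP_60e8bf_an.Irregular
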